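import Pool.Agent.W2helper31.TN.Main
import Mathlib.CategoryTheory.Subobject.NoetherianObject
import Mathlib.CategoryTheory.Subobject.ArtinianObject
import Mathlib.CategoryTheory.Simple
import Mathlib.CategoryTheory.Monoidal.Linear
import Mathlib.RingTheory.Finiteness.Defs

/-!
Tensor-vanishing maps out of the unit in `D^b(C)` for a finite symmetric tensor category `C`.

The bounded derived category is `Pool.Agent.W2helper31.TN.Db C`, the localization of the category of
bounded cochain complexes in `C` at the quasi-isomorphisms.  Its tensor product is the bifunctor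
`Pool.Agent.W2helper31.TN.dbTensor C` induced by the usual tensor product of bounded complexes (it
exists because the tensor product of `C` is exact in each variable), its unit is `unitDb C`, the
image of the unit of `C` in degree zero, and its zero morphisms are the morphisms that factor
through a zero object.
-/

namespace Pool.Agent.Results.MP_93437d_al.UnitMapsVanish

open CategoryTheory Limits MonoidalCategory Pool.Agent.W2helper31.TN

universe w v u

/-- The finiteness conditions in the definition of a finite tensor category over `k`: finite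
dimensional Hom spaces, objects of finite length, finitely many simple objects up to isomorphism,
enough projectives, and `End(1) = k`. -/
structure IsFiniteTensorCategory (k : Type w) [Field k] (C : Type u) [Category.{v} C] [Abelian C]
    [Linear k C] [MonoidalCategory C] : Prop where
  hom_finite : ∀ X Y : C, Module.Finite k (X ⟶ Y)
  noetherian : ∀ X : C, IsNoetherianObject X
  artinian : ∀ X : C, IsArtinianObject X
  finite_simples : ∃ (n : ℕ) (S : Fin n → C), ∀ X : C, Simple X → ∃ i, Nonempty (X ≅ S i)
  enough_projectives : EnoughProjectives C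
  end_unit : Function.Bijective (fun c : k => c • 𝟙 (𝟙_ C))

/-- The unit of the bounded derived category. -/
noncomputable abbrev unitDb (C : Type u) [Category.{v} C] [Abelian C] [MonoidalCategory C] :
    Db C :=
  (Lb C).obj (sg (𝟙_ C))

/-- Let `C` be a finite symmetric tensor category over a field `k`.  There is a nonzero object `Z`
of `D^b(C)` such that, whenever `f : 1 ⟶ X` and `g : 1 ⟶ Y` in `D^b(C)` satisfy `f ⊗ g = 0`, one has
`f ⊗ id_Z = 0` or `g ⊗ id_Z = 0`. -/
theorem result (k : Type w) [Field k] (C : Type u) [Category.{v} C] [Abelian C] [Linear k C]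
    [MonoidalCategory C] [MonoidalPreadditive C] [MonoidalLinear k C] [RigidCategory C]
    [SymmetricCategory C] (hC : IsFiniteTensorCategory k C) :
    ∃ Z : Db C, ¬ IsZero Z ∧
      ∀ (X Y : Db C) (f : unitDb C ⟶ X) (g : unitDb C ⟶ Y),
        dbTensorHom f g = 0 → dbTensorHom f (𝟙 Z) = 0 ∨ dbTensorHom g (𝟙 Z) = 0 := by
  obtain ⟨⟨P, q⟩⟩ := hC.enough_projectives.presentation (𝟙_ C)
  have hP0 : ¬ IsZero P := fun h => not_isZero_unit k hC.end_unit (h.of_epi q)
  refine ⟨(Lb C).obj (sg P), fun h => hP0 (isZero_of_isZero_Lb_obj_sg h), ?_⟩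
  rintro ⟨⟨K⟩⟩ ⟨⟨L⟩⟩ f g hfg
  obtain ⟨φ, hφ⟩ := exists_map_tr (𝟙_ C) K f
  obtain ⟨ψ, hψ⟩ := exists_map_tr (𝟙_ C) L g
  have h1 : (Lb C).map (tensMap φ ψ) = 0 := by
    have h2 : dbTensorHom ((Lb C).map φ) ((Lb C).map ψ) = 0 := by
      have h3 : dbTensorHom f g ≫ dbTensorHom ((Lb C).map (pr K)) ((Lb C).map (pr L)) =
          dbTensorHom ((Lb C).map φ) ((Lb C).map ψ) := by
        rw [← hφ, ← hψ]
        exact (dbTensorHom_comp _ _ _ _).symm
      rw [← h3, hfg]
      exact zero_comp
    rw [← cancel_epi (dbIso (sg (𝟙_ C)) (sg (𝟙_ C))).hom, ← dbIso_naturality, h2, zero_comp,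
      comp_zero]
  rcases unit_maps k hC.end_unit φ ψ h1 with h | h
  · left
    refine tensor_projective_eq_zero f ?_
    rw [hφ, h, Lb_map_zero]
  · right
    refine tensor_projective_eq_zero g ?_
    rw [hψ, h, Lb_map_zero]

end Pool.Agent.Results.MP_93437d_al.UnitMapsVanish
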